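import Pool.Agent.Work.MP_36677d_fb.FB7

set_option autoImplicit false

open Set Filter Topology

namespace Pool.Agent.Results.MP_36677d_gt.ChainsOfPathComponents

/-- `C` is a subcontinuum of `M` which meets only finitely many path components of `M`. -/
def FewComponents {M : Type} [TopologicalSpace M] (C : Set M) : Prop :=
  IsClosed C ∧ IsConnected C ∧ (ZerothHomotopy.mk '' C).Finite

/-- `I` contains `p` and `q`, and no proper subcontinuum of `I` contains both. -/
def IrreducibleBetween {M : Type} [TopologicalSpace M] (I : Set M) (p q : M) : Prop :=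
  p ∈ I ∧ q ∈ I ∧ ∀ K ⊆ I, IsClosed K → IsConnected K → p ∈ K → q ∈ K → K = I

/-- Let `M` be a tree-like continuum such that
(a) every continuous self-map of `M` maps some point into its own path component (for example:
`M` has the fixed point property), and
(b) if `I 0 ⊆ I 1 ⊆ …` are subcontinua of `M`, each meeting only finitely many path components of
`M` and irreducible between a common point `p` and some point `q n`, then every point of the
closure of their union lies together with `p` in a subcontinuum of `M` which meets only finitely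
many path components of `M`.
Then `M × [0, 1]` has the fixed point property.

Hypothesis (b) holds if any two points of `M` lie in a subcontinuum meeting only finitely many path
components of `M`. By `Pool.FA57.finCl_of_arcs` it also holds if the closure of the union of every
increasing sequence of arcs lies in one path component. -/
theorem result (M : Type) [MetricSpace M] [CompactSpace M] [ConnectedSpace M]
    (tree_like : ∀ ε : ℝ, 0 < ε → ∃ (n : ℕ) (U : Fin n → Set M),
      (∀ i, IsOpen (U i)) ∧ (∀ i, (U i).Nonempty) ∧
      (∀ i, Metric.diam (U i) < ε) ∧ (⋃ i, U i) = Set.univ ∧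
      (∀ i j k, i ≠ j → j ≠ k → i ≠ k → U i ∩ U j ∩ U k = ∅) ∧
      (SimpleGraph.fromRel (fun i j : Fin n => (U i ∩ U j).Nonempty)).IsAcyclic)
    (self_maps : ∀ f : C(M, M), ∃ x, Joined x (f x))
    (closures : ∀ (p : M) (I : ℕ → Set M) (q : ℕ → M), (∀ n, FewComponents (I n)) → Monotone I →
      (∀ n, IrreducibleBetween (I n) p (q n)) → ∀ y ∈ closure (⋃ n, I n),
      ∃ C, FewComponents C ∧ p ∈ C ∧ y ∈ C) :
    ∀ g : C(M × unitInterval, M × unitInterval), ∃ p, g p = p := by
  intro g
  refine Pool.FA57.mainB tree_like self_maps ?_ g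
  intro p I q h1 h2 h3 h4 h5 h6 y hy
  obtain ⟨C, hC, hpC, hyC⟩ := closures p I q (fun n => ⟨h1 n, ⟨⟨p, (h4 n).1⟩, h2 n⟩, h6 n⟩)
    (monotone_nat_of_le_succ h3) (fun n => ⟨(h4 n).1, (h4 n).2, fun K hK hKc hKcon hpK hqK =>
      h5 n K hK hKc hKcon.isPreconnected hpK hqK⟩) y hy
  exact ⟨C, hC.1, hC.2.1.isPreconnected, hpC, hyC, hC.2.2⟩

end Pool.Agent.Results.MP_36677d_gt.ChainsOfPathComponents
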