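import Pool.Agent.Work.MP_36677d_fn.FN7

set_option autoImplicit false

open Set Filter Topology

namespace Pool.Agent.Results.MP_36677d_gt.LambdaDendroids

/-- `Q` is hereditarily decomposable: every nondegenerate subcontinuum `X` of `M` which lies in `Q`
is the union of two proper subcontinua. -/
def HereditarilyDecomposable {M : Type} [TopologicalSpace M] (Q : Set M) : Prop :=
  ∀ X ⊆ Q, IsClosed X → IsConnected X → X.Nontrivial → ∃ A B : Set M,
    IsClosed A ∧ IsConnected A ∧ IsClosed B ∧ IsConnected B ∧ A ≠ X ∧ B ≠ X ∧ A ∪ B = X

/-- `I` is a continuum which contains `p` and `q`, and no proper subcontinuum of `I` contains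
both. -/
def IrreducibleContinuum {M : Type} [TopologicalSpace M] (I : Set M) (p q : M) : Prop :=
  IsClosed I ∧ IsConnected I ∧ p ∈ I ∧ q ∈ I ∧
    ∀ K ⊆ I, IsClosed K → IsConnected K → p ∈ K → q ∈ K → K = I

/-- Let `M` be a tree-like, or more generally hereditarily unicoherent, continuum such that
(a) `M` is hereditarily decomposable, or every continuous `f : M → M` has a point `x` which can be
joined to `f x` by a path (for example: `M` has the fixed point property), and
(b) if `I 0 ⊆ I 1 ⊆ …` are hereditarily decomposable subcontinua of the closure of one path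
component of `M`, each irreducible between a common point `p` and some point `q n`, then the
closure of their union is hereditarily decomposable.
Then `M × [0, 1]` has the fixed point property.

If `M` is hereditarily decomposable (a lambda-dendroid), then (a) and (b) hold. Hence `M × [0, 1]`
has the fixed point property for every lambda-dendroid `M`. -/
theorem result (M : Type) [MetricSpace M] [CompactSpace M] [ConnectedSpace M]
    (tree_like_or_unicoherent :
      (∀ ε : ℝ, 0 < ε → ∃ (n : ℕ) (U : Fin n → Set M),
        (∀ i, IsOpen (U i)) ∧ (∀ i, (U i).Nonempty) ∧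
        (∀ i, Metric.diam (U i) < ε) ∧ (⋃ i, U i) = Set.univ ∧
        (∀ i j k, i ≠ j → j ≠ k → i ≠ k → U i ∩ U j ∩ U k = ∅) ∧
        (SimpleGraph.fromRel (fun i j : Fin n => (U i ∩ U j).Nonempty)).IsAcyclic) ∨
      (∀ A B : Set M, IsClosed A → IsConnected A → IsClosed B → IsConnected B →
        IsPreconnected (A ∩ B)))
    (decomposable_or_self_maps :
      HereditarilyDecomposable (Set.univ : Set M) ∨ ∀ f : C(M, M), ∃ x, Joined x (f x))
    (increasing_unions : ∀ (x p : M) (I : ℕ → Set M) (q : ℕ → M), Monotone I →
      (∀ n, IrreducibleContinuum (I n) p (q n)) → (∀ n, I n ⊆ closure (pathComponent x)) →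
      (∀ n, HereditarilyDecomposable (I n)) → HereditarilyDecomposable (closure (⋃ n, I n))) :
    ∀ g : C(M × unitInterval, M × unitInterval), ∃ p, g p = p :=
  Pool.FN57.mainU tree_like_or_unicoherent
    (fun x p I q h1 h2 h3 => increasing_unions x p I q h1
      (fun n => ⟨(h2 n).1, (h2 n).2.1, h3 n⟩) (fun n => (h2 n).2.2.1) (fun n => (h2 n).2.2.2))
    decomposable_or_self_maps

end Pool.Agent.Results.MP_36677d_gt.LambdaDendroids
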