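import Pool.Agent.Work.MP_36677d_fa.FA7

set_option autoImplicit false

open Set Filter Topology

namespace Pool.Agent.Results.MP_36677d_gt.RayAlternatives

/-- The limit set of a ray `r : [0, ∞) → M`. -/
def limitSet {M : Type} [TopologicalSpace M] (r : ℝ → M) : Set M :=
  ⋂ n : ℕ, closure (r '' Ici (n : ℝ))

/-- Let `M` be a tree-like continuum such that
(a) every continuous self-map of a subcontinuum of `M` maps some point into its own path component
(for example: every subcontinuum of `M` has the fixed point property), and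
(b) every ray, that is, every continuous injective `r : [0, ∞) → M`, satisfies one of
(b1) `r` converges,
(b2) `r s` does not lie in the limit set of `r` for large `s`, and for every `ε > 0` there are
arbitrarily large `s₀` such that every point of `M` which can be joined to `r 0` by a path, but
only through `r s₀`, has distance less than `ε` from `r [s₀, ∞)` (the side branches at the
end of `r` are small),
(b3) `M` has at most countably many path components, and the limit set of `r` meets only finitely
many of them.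
Then `M × [0, 1]` has the fixed point property. -/
theorem result (M : Type) [MetricSpace M] [CompactSpace M] [ConnectedSpace M]
    (tree_like : ∀ ε : ℝ, 0 < ε → ∃ (n : ℕ) (U : Fin n → Set M),
      (∀ i, IsOpen (U i)) ∧ (∀ i, (U i).Nonempty) ∧
      (∀ i, Metric.diam (U i) < ε) ∧ (⋃ i, U i) = Set.univ ∧
      (∀ i j k, i ≠ j → j ≠ k → i ≠ k → U i ∩ U j ∩ U k = ∅) ∧
      (SimpleGraph.fromRel (fun i j : Fin n => (U i ∩ U j).Nonempty)).IsAcyclic)
    (self_maps : ∀ K : Set M, IsClosed K → IsConnected K → ∀ f : C(K, K), ∃ x, Joined x (f x))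
    (rays : ∀ r : ℝ → M, ContinuousOn r (Ici 0) → InjOn r (Ici 0) →
      (∃ y, Tendsto r atTop (𝓝 y)) ∨
      ((∃ s₂ : ℝ, ∀ s, s₂ ≤ s → r s ∉ limitSet r) ∧
        ∀ ε : ℝ, 0 < ε → ∀ s₁ : ℝ, ∃ s₀ : ℝ, 0 ≤ s₀ ∧ s₁ ≤ s₀ ∧ ∀ u, Joined (r 0) u →
          ¬ JoinedIn {r s₀}ᶜ (r 0) u → ∃ s, s₀ ≤ s ∧ dist u (r s) < ε) ∨
      (Countable (ZerothHomotopy M) ∧ (ZerothHomotopy.mk '' limitSet r).Finite)) :
    ∀ g : C(M × unitInterval, M × unitInterval), ∃ p, g p = p :=
  fun g => Pool.FA57.main2 tree_like self_maps rays g

end Pool.Agent.Results.MP_36677d_gt.RayAlternatives
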