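import Pool.Agent.Work.MP_36677d_ray.Fin

set_option autoImplicit false

namespace Pool.Agent.Results.MP_36677d_gt.TracksThroughStart

/-- Let `M` be a tree-like continuum which contains no simple triod, let `G = (h, k)` be a continuous self-map
of `M × [0, 1]`, and let `p ∈ M` be such that every point `x` of the path component of `p` lies on its track
`h ({x} × [0, 1])`. Then `G` has a fixed point. -/
theorem result (M : Type) [MetricSpace M] [CompactSpace M]
    (tree_like : ∀ ε : ℝ, 0 < ε → ∃ (n : ℕ) (U : Fin n → Set M),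
      (∀ i, IsOpen (U i)) ∧ (∀ i, (U i).Nonempty) ∧
      (∀ i, Metric.diam (U i) < ε) ∧ (⋃ i, U i) = Set.univ ∧
      (∀ i j k, i ≠ j → j ≠ k → i ≠ k → U i ∩ U j ∩ U k = ∅) ∧
      (SimpleGraph.fromRel (fun i j : Fin n => (U i ∩ U j).Nonempty)).IsAcyclic)
    (no_triod : ¬ ∃ f g h : C(unitInterval, M), Function.Injective f ∧ Function.Injective g ∧
      Function.Injective h ∧ f 0 = g 0 ∧ f 0 = h 0 ∧ Set.range f ∩ Set.range g = {f 0} ∧
      Set.range f ∩ Set.range h = {f 0} ∧ Set.range g ∩ Set.range h = {f 0})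
    (G : C(M × unitInterval, M × unitInterval)) (p : M)
    (tracks : ∀ x, Joined p x → ∃ t, (G (x, t)).1 = x) : ∃ q, G q = q :=
  Pool.RY.res1 M tree_like (Pool.RY.noTriod_of M no_triod) G p tracks

end Pool.Agent.Results.MP_36677d_gt.TracksThroughStart
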